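import Mathlib
import Pool.Agent.H2.RF5

set_option autoImplicit false

namespace Pool.Agent.Results.MP_06a8b9_al.NoSepQuot

open Filter Topology Set

/-- Pontryagin reflexive: the evaluation map is a topological isomorphism onto the bidual -/
def Reflexive (G : Type) [CommGroup G] [TopologicalSpace G] : Prop :=
  ∃ e : G ≃ₜ* PontryaginDual (PontryaginDual G), ∀ (g : G) (χ : PontryaginDual G), e g χ = χ g

/-- An infinite reflexive abelian group all of whose separable quotient groups are trivial. -/
theorem result : ∃ (G : Type) (_ : CommGroup G) (_ : TopologicalSpace G),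
    IsTopologicalGroup G ∧ T2Space G ∧ Infinite G ∧ Reflexive G ∧
    ∀ N : Subgroup G, IsClosed (N : Set G) → TopologicalSpace.SeparableSpace (G ⧸ N) → N = ⊤ := by
  obtain ⟨H, -, h1, -, h2, h3, h4⟩ := H2.RF.main
  refine ⟨H, inferInstance, inferInstance, inferInstance, inferInstance,
    infinite_coe_iff.2 fun h => h1 h.countable, h4, fun N hN hs => ?_⟩
  by_cases h5 : (N : Set H).Countable
  swap
  · exact SetLike.coe_injective (hN.closure_eq.symm.trans (h3 N h5).closure_eq)
  obtain ⟨D, h6, h7⟩ := TopologicalSpace.exists_countable_dense (H ⧸ N)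
  have h8 : ((↑) ⁻¹' D : Set H).Countable := by
    refine (h6.image2 h5 fun d n => d.out * n).mono fun x hx => ?_
    exact ⟨x, hx, _, QuotientGroup.eq.1 (QuotientGroup.out_eq' (x : H ⧸ N)), by simp⟩
  have h9 : (Subgroup.closure ((↑) ⁻¹' D : Set H) : Set H).Countable := by
    have := h8.to_subtype
    refine (countable_range (FreeGroup.lift fun x : ((↑) ⁻¹' D : Set H) => x.1)).mono ?_
    rw [← MonoidHom.coe_range, FreeGroup.range_lift_eq_closure, Subtype.range_coe]
  have h10 := (h2 _ h9).closure_eq.symm.trans
    ((h7.preimage QuotientGroup.isOpenMap_coe).mono Subgroup.subset_closure).closure_eq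
  exact absurd (countable_coe_iff.1 (countable_univ_iff.1 (h10 ▸ h9))) h1

end Pool.Agent.Results.MP_06a8b9_al.NoSepQuot
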